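import Pool.Agent.H96R.CP.Defs
import Pool.Agent.H673R2.OneTT.Kset

/-!
# The change of the oracle

Round `j` is for the code number `i` if `j = k 2^i (2q+1)`. Its budget is `2^(2^j)`. The flag of round
`j` is the bit number `1^(2^(2^(j+κ)))` of the oracle. It tells whether the pair of algorithms with
code number `i` is found to be not disjoint with this budget.
-/

set_option autoImplicit false

namespace Pool.Agent.H96R.CP

open Pool.Agent.NPC Pool.Agent.H628R3.RO Pool.Agent.H96R.DP Pool.Agent.H673R2.OneTT

/-- the place of the flag of round `j` -/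
def fl (κ j : ℕ) : List Bool := List.replicate (2 ^ (2 ^ (j + κ))) true

/-- the budget of round `j` -/
def bu (j : ℕ) : ℕ := 2 ^ (2 ^ j)

/-- round `j` is for the code number `i` -/
def Rd (k i j : ℕ) : Prop := j % (k * 2 ^ (i + 1)) = k * 2 ^ i

/-- the string number `i` -/
def num (i : ℕ) : List Bool := (Nat.bits i).dropLast

/-- the codes of the two algorithms -/
def cd (c : Bool) (i : ℕ) : List Bool := if c then (unpair (num i)).2 else (unpair (num i)).1

/-- the algorithm number `c` of the code number `i` accepts the input `u` with budget `m` -/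
def Acc (O : Oracle) (c : Bool) (i : ℕ) (u : List Bool) (m : ℕ) : Prop :=
  ∃ w : List Bool, w.length ≤ m ∧
    uA.out O (pairBits (pairBits (cd c i) (pairBits u (List.replicate m true))) w) = some [true]

/-- the pair with code number `i` is not disjoint, with the budget of round `j` -/
def Viol (O : Oracle) (i j : ℕ) : Prop :=
  ∃ u : List Bool, u.length ≤ bu j ∧ Acc O false i u (bu j) ∧ Acc O true i u (bu j)

/-- the flag of round `j` should be true -/
def Flag (k : ℕ) (O : Oracle) (j : ℕ) : Prop := ∃ i, Rd k i j ∧ Viol O i j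

section

variable (k κ : ℕ) (B A₀ : Oracle)

open Classical in
/-- the first `j` flags are set -/
noncomputable def st : ℕ → Oracle
  | 0 => A₀
  | j + 1 => fun x => if x = fl κ j ∧ k ∣ j ∧ 0 < j then decide (Flag k (jn (st j) B) j) else st j x

/-- the oracle in which all flags are set -/
noncomputable def Φ : Oracle := fun x => st k κ B A₀ x.length x

theorem length_fl (j : ℕ) : (fl κ j).length = 2 ^ (2 ^ (j + κ)) := by
  unfold fl
  rw [List.length_replicate]

theorem lt_length_fl (j : ℕ) : j < (fl κ j).length := by
  rw [length_fl]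
  have h1 : j + κ < 2 ^ (j + κ) := Nat.lt_two_pow_self
  have h2 : 2 ^ (j + κ) < 2 ^ (2 ^ (j + κ)) := Nat.lt_two_pow_self
  omega

theorem length_fl_mono {j j' : ℕ} (h : j ≤ j') : (fl κ j).length ≤ (fl κ j').length := by
  rw [length_fl, length_fl]
  exact Nat.pow_le_pow_right (by norm_num) (Nat.pow_le_pow_right (by norm_num) (by omega))

theorem st_eq {j n : ℕ} (h : j ≤ n) {x : List Bool} (hx : x.length < (fl κ j).length) :
    st k κ B A₀ n x = st k κ B A₀ j x := by
  induction n, h using Nat.le_induction with
  | base => rfl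
  | succ n hn ih =>
    rw [← ih]
    show (if x = fl κ n ∧ k ∣ n ∧ 0 < n then _ else _) = _
    rw [if_neg]
    rintro ⟨h1, -, -⟩
    rw [h1] at hx
    have := length_fl_mono κ hn
    omega

theorem Φ_eq {j : ℕ} {x : List Bool} (hx : x.length < (fl κ j).length) :
    Φ k κ B A₀ x = st k κ B A₀ j x := by
  unfold Φ
  rcases le_total j x.length with h | h
  · exact st_eq k κ B A₀ h hx
  · exact (st_eq k κ B A₀ h (lt_length_fl κ _)).symm

theorem Φ_eq_self {x : List Bool} (h : ∀ j, k ∣ j → 0 < j → x ≠ fl κ j) :
    Φ k κ B A₀ x = A₀ x := by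
  unfold Φ
  have key : ∀ n, st k κ B A₀ n x = A₀ x := by
    intro n
    induction n with
    | zero => rfl
    | succ n ih =>
      show (if x = fl κ n ∧ k ∣ n ∧ 0 < n then _ else _) = _
      rw [if_neg, ih]
      rintro ⟨h1, h2, h3⟩
      exact h n h2 h3 h1
  exact key _

end

end Pool.Agent.H96R.CP
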