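import Pool.Agent.H96R.CP.Hard
import Pool.Agent.H620R2.GaugeR.R8

/-!
# The flags are sparse
-/

set_option autoImplicit false

namespace Pool.Agent.H96R.CP

open Pool.Agent.NPC Pool.Agent.H628R3.RO Pool.Agent.H96R.DP
open Pool.Agent.H620R2.Gauge (str str_injective length_str)

/-- the places of the flags -/
def TT (k κ : ℕ) : Set (List Bool) := {x | ∃ s : ℕ, 0 < s ∧ x = fl κ (k * s)}

open Classical in
theorem card_TT {k : ℕ} (hk : 0 < k) (κ N : ℕ) :
    ((Finset.range N).filter (fun i => str i ∈ TT k κ)).card ≤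
      Nat.log 2 (Nat.log 2 (Nat.log 2 N)) / k := by
  set m := Nat.log 2 (Nat.log 2 (Nat.log 2 N)) / k with hm
  have h1 : ((Finset.range N).filter (fun i => str i ∈ TT k κ)).image str ⊆
      (Finset.Icc 1 m).image (fun s => fl κ (k * s)) := by
    intro x hx
    rw [Finset.mem_image] at hx
    obtain ⟨i, hi, rfl⟩ := hx
    rw [Finset.mem_filter, Finset.mem_range] at hi
    obtain ⟨hi, s, hs, h⟩ := hi
    rw [Finset.mem_image]
    refine ⟨s, Finset.mem_Icc.2 ⟨hs, ?_⟩, h.symm⟩
    have e1 : (str i).length = 2 ^ (2 ^ (k * s + κ)) := by rw [h, length_fl]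
    rw [length_str] at e1
    have e2 : Nat.log 2 (i + 1) ≤ Nat.log 2 N := Nat.log_mono_right (by omega)
    rw [e1] at e2
    have e3 : 2 ^ (k * s + κ) ≤ Nat.log 2 (Nat.log 2 N) := by
      have := Nat.log_mono_right (b := 2) e2
      rwa [Nat.log_pow (by norm_num)] at this
    have e4 : k * s + κ ≤ Nat.log 2 (Nat.log 2 (Nat.log 2 N)) := by
      have := Nat.log_mono_right (b := 2) e3
      rwa [Nat.log_pow (by norm_num)] at this
    rw [hm, Nat.le_div_iff_mul_le hk]
    have : s * k = k * s := mul_comm _ _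
    omega
  have h2 := Finset.card_le_card h1
  rw [Finset.card_image_of_injective _ str_injective] at h2
  refine h2.trans (Finset.card_image_le.trans ?_)
  rw [Nat.card_Icc, Nat.add_sub_cancel]

theorem Φ_eq_off (k κ : ℕ) (B A₀ : Oracle) : ∀ y ∉ TT k κ, Φ k κ B A₀ y = A₀ y := by
  intro y hy
  apply Φ_eq_self
  rintro j ⟨s, rfl⟩ hj h
  exact hy ⟨s, Nat.pos_of_ne_zero (by rintro rfl; simp at hj), h⟩

end Pool.Agent.H96R.CP
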