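import Pool.Agent.H96R.DP.Base
import Pool.Agent.H620R2.Gauge.Defs

/-!
# Oracles with complete disjoint NP pairs: definitions
-/

set_option autoImplicit false

namespace Pool.Agent.H96R.CP

open Pool.Agent.NPC Pool.Agent.H628R3.RO Pool.Agent.H96R.DP

/-- The disjoint `NP` pair `(K₀, K₁)` is complete, relative to the oracle `O`. -/
def CompletePair (O : Oracle) (K₀ K₁ : Set (List Bool)) : Prop :=
  IsPair (IsNP O) K₀ K₁ ∧ ∀ L₀ L₁, IsPair (IsNP O) L₀ L₁ → RedPair O L₀ L₁ K₀ K₁

/-- The set of the oracles `A` such that there is a complete disjoint `NP` pair relative to the join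
of `A` and `B`. -/
def HasComplete (B : Oracle) : Set Oracle := {A | ∃ K₀ K₁, CompletePair (jn A B) K₀ K₁}

end Pool.Agent.H96R.CP
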