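import Pool.Agent.H96R.CP.Univ

/-!
# The universal pair is complete
-/

set_option autoImplicit false

namespace Pool.Agent.H96R.CP

open Pool.Agent.NPC Pool.Agent.H628R3.RO Pool.Agent.H96R.DP Pool.Agent.H673R2.OneTT
open Pool.Agent.H660R2.NX (Code U IsCode U_complete)

/-- every language in `NP` has a code -/
theorem exists_code {O : Oracle} {L : Set (List Bool)} (hL : IsNP O L) :
    ∃ (v : List Bool) (P : Polynomial ℕ),
      (∀ (u : List Bool) (m : ℕ), P.eval u.length ≤ m → u ∈ L → ∃ w : List Bool, w.length ≤ m ∧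
        uA.out O (pairBits (pairBits v (pairBits u (List.replicate m true))) w) = some [true]) ∧
      (∀ (u : List Bool) (m : ℕ) (w : List Bool),
        uA.out O (pairBits (pairBits v (pairBits u (List.replicate m true))) w) = some [true] →
          u ∈ L) := by
  obtain ⟨V, p, hV, hLV⟩ := hL
  -- the verifier checks the length of the witness
  have h2 : IsFP O (fun t => pairBits (V t) t) := IsFP.pair hV (IsFP.of_poly Poly.id)
  have h3 : Poly (fun t : List Bool => [decide ((unpair t).1 = [true]) &&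
      decide ((unpair (unpair t).2).2.length ≤ p.eval (unpair (unpair t).2).1.length)]) := by
    have h4 : Poly (fun t : List Bool => (unpair t).2) := Poly.snd poly_unpair
    have h5 : Poly (fun t : List Bool => (unpair (unpair t).2).1) :=
      Poly.fst (poly_unpair.comp h4)
    have h6 : Poly (fun t : List Bool => (unpair (unpair t).2).2) :=
      Poly.snd (poly_unpair.comp h4)
    exact Poly.cons (Poly.and (Poly.decide_eq (Poly.fst poly_unpair) (NPC.Poly.const [true]))
      (Poly.decide_le (Poly.length h6) (UPoly.eval (UPoly.length h5) p).toPoly))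
      (NPC.Poly.const [])
  have h4 := IsFP.comp (IsFP.of_poly (A := O) h3) h2
  simp only [unpair_pairBits] at h4
  obtain ⟨M, hM⟩ := h4
  beta_reduce at hM
  obtain ⟨e, pe, he⟩ := U_complete M.poly
  have hcode : IsCode e M.D pe := he
  -- the time bound
  set b1 : Polynomial ℕ := 2 * Polynomial.X + 1 + p with hb1
  set b2 : Polynomial ℕ := M.p.comp b1 with hb2
  set bm : Polynomial ℕ := b2 + pe.comp (2 * b1 + 1 + b2) + p with hbm
  refine ⟨bits e, bm, fun u m hm hu => ?_, fun u m w h5 => ?_⟩
  · obtain ⟨w, hw, hVw⟩ := (hLV u).1 hu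
    have h9 : bm.eval u.length = b2.eval u.length +
        (pe.comp (2 * b1 + 1 + b2)).eval u.length + p.eval u.length := by
      rw [hbm, Polynomial.eval_add, Polynomial.eval_add]
    refine ⟨w, by omega, ?_⟩
    have h5 := hM (pairBits u w)
    have h6 : (pairBits u w).length ≤ b1.eval u.length := by
      rw [H628R3.RO.length_pairBits, hb1]
      simp only [Polynomial.eval_add, Polynomial.eval_mul, Polynomial.eval_X,
        Polynomial.eval_one, Polynomial.eval_ofNat]
      omega
    have h7 : M.p.eval (pairBits u w).length ≤ b2.eval u.length := by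
      rw [hb2, Polynomial.eval_comp]
      exact eval_mono _ h6
    have h8 : M.out O (pairBits u w) = some [true] := by
      rw [h5, unpair_pairBits]
      simp [hVw, hw]
    unfold Alg.out at h8
    have h10 : uA.p.eval (pairBits (insK e u m) w).length =
        (pairBits (insK e u m) w).length + 1 := by
      show (Polynomial.X + 1 : Polynomial ℕ).eval _ = _
      simp
    show uA.out O (pairBits (insK e u m) w) = some [true]
    unfold Alg.out
    refine uA_complete hcode (B := M.p.eval (pairBits u w).length) (by omega) ?_ _ _ (by simp)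
      h8 _ ?_
    · intro a ha
      refine le_trans (eval_mono pe (n := (2 * b1 + 1 + b2).eval u.length) ?_) ?_
      · rw [H628R3.RO.length_pairBits]
        simp only [Polynomial.eval_add, Polynomial.eval_mul,
          Polynomial.eval_one, Polynomial.eval_ofNat]
        omega
      · rw [← Polynomial.eval_comp]
        omega
    · rw [h10, H628R3.RO.length_pairBits]
      have h11 := le_length_insK e u m
      omega
  · have h5' : uA.out O (pairBits (insK e u m) w) = some [true] := h5
    obtain ⟨n', h6⟩ := uA_sound hcode _ _ h5'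
    have h7 := hM (pairBits u w)
    unfold Alg.out at h7
    have h8 := run_det M O _ _ _ _ _ _ h6 h7
    rw [unpair_pairBits] at h8
    simp only [List.cons.injEq, and_true] at h8
    have h9 := h8.symm
    simp only [Bool.and_eq_true, decide_eq_true_eq] at h9
    exact (hLV u).2 ⟨w, h9.2, h9.1⟩

theorem exists_bits : ∀ v : List Bool, ∃ i : ℕ, 0 < i ∧ Nat.bits i = v ++ [true]
  | [] => ⟨1, by norm_num, by simp⟩
  | b :: v => by
    obtain ⟨i, hi, h⟩ := exists_bits v
    refine ⟨Nat.bit b i, ?_, ?_⟩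
    · cases b <;> simp [Nat.bit] <;> omega
    · rw [Nat.bits_append_bit _ _ (fun h0 => by omega), h]
      rfl

theorem exists_num (v : List Bool) : ∃ i, num i = v := by
  obtain ⟨i, -, h⟩ := exists_bits v
  refine ⟨i, ?_⟩
  unfold num
  rw [h, List.dropLast_concat]

theorem Rd.unique {k i i' j : ℕ} (hk : 0 < k) (h : Rd k i j) (h' : Rd k i' j) : i = i' := by
  have key : ∀ {a b : ℕ}, a < b → Rd k a j → Rd k b j → False := by
    intro a b hab ha hb
    unfold Rd at ha hb
    have h1 : k * 2 ^ (a + 1) ∣ j := by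
      have h3 := Nat.div_add_mod j (k * 2 ^ (b + 1))
      rw [hb] at h3
      rw [← h3]
      have h4 : k * 2 ^ (a + 1) ∣ k * 2 ^ b := Nat.mul_dvd_mul_left _ (Nat.pow_dvd_pow _ (by omega))
      have h5 : k * 2 ^ (a + 1) ∣ k * 2 ^ (b + 1) :=
        Nat.mul_dvd_mul_left _ (Nat.pow_dvd_pow _ (by omega))
      exact Dvd.dvd.add (Dvd.dvd.mul_right h5 _) h4
    rw [Nat.mod_eq_zero_of_dvd h1] at ha
    have : 0 < k * 2 ^ a := by positivity
    omega
  rcases lt_trichotomy i i' with h1 | h1 | h1
  · exact (key h1 h h').elim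
  · exact h1
  · exact (key h1 h' h).elim

/-- the first round for the code number `i` from `L` on -/
def nx (k i L : ℕ) : ℕ :=
  L + (k * 2 ^ i + (k * 2 ^ (i + 1) - L % (k * 2 ^ (i + 1)))) % (k * 2 ^ (i + 1))

theorem nx_spec {k : ℕ} (hk : 0 < k) (i L : ℕ) : Rd k i (nx k i L) ∧ L ≤ nx k i L ∧
    nx k i L ≤ L + k * 2 ^ (i + 1) := by
  unfold nx Rd
  obtain ⟨a, ha⟩ : ∃ a, a = k * 2 ^ i := ⟨_, rfl⟩
  have hX : k * 2 ^ (i + 1) = 2 * a := by rw [ha, pow_succ]; ring
  have ha0 : 0 < a := by rw [ha]; positivity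
  rw [hX, ← ha]
  have h1 := Nat.div_add_mod L (2 * a)
  have h2 : L % (2 * a) < 2 * a := Nat.mod_lt _ (by omega)
  refine ⟨?_, by omega, ?_⟩
  · rw [Nat.add_mod_mod]
    have h3 : L + (a + (2 * a - L % (2 * a))) = a + 2 * a * (L / (2 * a) + 1) := by
      rw [mul_add, mul_one]
      omega
    rw [h3, Nat.add_mul_mod_self_left, Nat.mod_eq_of_lt (by omega)]
  · have := Nat.mod_lt (a + (2 * a - L % (2 * a))) (show 0 < 2 * a by omega)
    omega

theorem lt_bu_size (P : ℕ) : P < bu P.size.size := by
  unfold bu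
  have h1 : P < 2 ^ P.size := Nat.lt_size_self P
  have h2 : P.size < 2 ^ P.size.size := Nat.lt_size_self _
  exact h1.trans (Nat.pow_lt_pow_right (by norm_num) h2)

theorem bu_nx_le {k : ℕ} (hk : 0 < k) (i P : ℕ) :
    bu (nx k i (P + 1).size.size) ≤ (4 * (P + 1) ^ 2) ^ (2 ^ (k * 2 ^ (i + 1))) := by
  have h1 := (nx_spec hk i (P + 1).size.size).2.2
  have h2 : bu (nx k i (P + 1).size.size) ≤ bu ((P + 1).size.size + k * 2 ^ (i + 1)) :=
    Nat.pow_le_pow_right (by norm_num) (Nat.pow_le_pow_right (by norm_num) h1)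
  refine h2.trans ?_
  unfold bu
  rw [pow_add, pow_mul]
  apply Nat.pow_le_pow_left
  have hs : ∀ s : ℕ, 0 < s → 2 ^ s.size ≤ 2 * s := by
    intro s hs
    have h3 : 0 < s.size := Nat.size_pos.2 hs
    obtain ⟨t, ht⟩ : ∃ t, s.size = t + 1 := ⟨s.size - 1, by omega⟩
    have h4 : 2 ^ t ≤ s := by
      rw [← Nat.lt_size]
      omega
    rw [ht, pow_succ]
    omega
  have h5 : 0 < (P + 1).size := Nat.size_pos.2 (by omega)
  have h6 := hs _ h5
  have h7 := hs (P + 1) (by omega)
  calc 2 ^ (2 ^ (P + 1).size.size) ≤ 2 ^ (2 * (P + 1).size) := Nat.pow_le_pow_right (by norm_num) h6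
    _ = (2 ^ (P + 1).size) ^ 2 := by rw [mul_comm, pow_mul]
    _ ≤ (2 * (P + 1)) ^ 2 := Nat.pow_le_pow_left h7 2
    _ = 4 * (P + 1) ^ 2 := by ring

theorem p_size {α : Type} [TEnc α] {n : α → ℕ} (hn : Poly n) : Poly (fun a => (n a).size) :=
  (Poly.length (Poly.natBits hn)).congr fun a => (Nat.size_eq_bits_len _)

/-- the reduction is computable in polynomial time -/
theorem p_red {k : ℕ} (hk : 0 < k) (i : ℕ) (P : Polynomial ℕ) :
    Poly (fun u : List Bool => ins i (nx k i (P.eval u.length + 1).size.size) u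
      (bu (nx k i (P.eval u.length + 1).size.size))) := by
  have hP : UPoly (fun u : List Bool => P.eval u.length + 1) :=
    (UPoly.eval (UPoly.length Poly.id) P).add (UPoly.const 1)
  have hL : Poly (fun u : List Bool => (P.eval u.length + 1).size.size) := p_size (p_size hP.toPoly)
  have hN : Poly (fun u : List Bool => nx k i (P.eval u.length + 1).size.size) := by
    unfold nx
    exact Poly.add hL (Poly.mod (Poly.add (NPC.Poly.const _) (Poly.sub (NPC.Poly.const _)
      (Poly.mod hL (NPC.Poly.const _)))) (NPC.Poly.const _))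
  have hcap : UPoly (fun u : List Bool =>
      (4 * (P.eval u.length + 1) ^ 2) ^ (2 ^ (k * 2 ^ (i + 1))) + 1) :=
    (u_powc ((UPoly.const 4).mul (u_powc hP 2)) _).add (UPoly.const 1)
  have hle : ∀ u : List Bool, bu (nx k i (P.eval u.length + 1).size.size) ≤
      (4 * (P.eval u.length + 1) ^ 2) ^ (2 ^ (k * 2 ^ (i + 1))) := fun u => bu_nx_le hk i _
  have hNU : UPoly (fun u : List Bool => nx k i (P.eval u.length + 1).size.size) :=
    UPoly.of_le hN hcap fun u => by
      have h1 := le_bu (nx k i (P.eval u.length + 1).size.size)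
      have h2 := hle u
      omega
  have hM : UPoly (fun u : List Bool => bu (nx k i (P.eval u.length + 1).size.size)) := by
    refine (u_cpow (u_cpow hNU hcap) hcap).congr fun u => ?_
    congr 1
    have h2 := hle u
    obtain ⟨c, hc⟩ : ∃ c, c = (4 * (P.eval u.length + 1) ^ 2) ^ (2 ^ (k * 2 ^ (i + 1))) := ⟨_, rfl⟩
    beta_reduce
    rw [← hc] at h2 ⊢
    unfold cpow
    have h3 : 2 ^ nx k i (P.eval u.length + 1).size.size <
        bu (nx k i (P.eval u.length + 1).size.size) := Nat.lt_two_pow_self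
    rw [min_eq_left (by omega : 2 ^ nx k i (P.eval u.length + 1).size.size ≤ c + 1)]
    show min (bu _) _ = _
    omega
  unfold ins
  exact H622R2.poly_pairBits (NPC.Poly.const _) (H622R2.poly_pairBits (DP.p_replicate hNU true)
    (H622R2.poly_pairBits Poly.id (DP.p_replicate hM true)))

/-- the universal pair is complete, after the change of the oracle -/
theorem complete_UU : ∃ κ₀, ∀ κ ≥ κ₀, ∀ (k : ℕ) (B A₀ : Oracle), 0 < k →
    CompletePair (jn (Φ k κ B A₀) B) (UU k κ (jn (Φ k κ B A₀) B) false)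
      (UU k κ (jn (Φ k κ B A₀) B) true) := by
  obtain ⟨κ₀, hκ₀⟩ := disj_UU
  obtain ⟨κ₁, hκ₁⟩ := flag_Φ
  refine ⟨max κ₀ κ₁, fun κ hκ k B A₀ hk => ?_⟩
  have hd := hκ₀ κ ((le_max_left _ _).trans hκ) k B A₀ hk
  have hf := hκ₁ κ ((le_max_right _ _).trans hκ) k B A₀
  refine ⟨⟨isNP_UU hk κ _ false, isNP_UU hk κ _ true, hd⟩, ?_⟩
  rintro L₀ L₁ ⟨hL₀, hL₁, hdis⟩
  obtain ⟨v₀, P₀, hc₀, hs₀⟩ := exists_code hL₀
  obtain ⟨v₁, P₁, hc₁, hs₁⟩ := exists_code hL₁
  obtain ⟨i, hi⟩ := exists_num (pairBits v₀ v₁)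
  have hcd0 : cd false i = v₀ := by
    unfold cd
    rw [hi]
    simp [unpair_pairBits]
  have hcd1 : cd true i = v₁ := by
    unfold cd
    rw [hi]
    simp [unpair_pairBits]
  -- the flags for this code are false
  have hflag : ∀ j, Rd k i j → Φ k κ B A₀ (fl κ j) = false := by
    intro j hj
    obtain ⟨-, h1, h2⟩ := Rd.le hk hj
    rw [← Bool.not_eq_true, hf j hk h1 h2]
    rintro ⟨i', hi', u, -, ⟨w, -, h3⟩, w', -, h4⟩
    have := Rd.unique hk hi' hj
    subst this
    rw [hcd0] at h3
    rw [hcd1] at h4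
    exact hdis u ⟨hs₀ _ _ _ h3, hs₁ _ _ _ h4⟩
  obtain ⟨P, hP⟩ : ∃ P : Polynomial ℕ, P = P₀ + P₁ + Polynomial.X := ⟨_, rfl⟩
  have hPe : ∀ n, P.eval n = P₀.eval n + P₁.eval n + n := by
    intro n
    rw [hP, Polynomial.eval_add, Polynomial.eval_add, Polynomial.eval_X]
  have hmem : ∀ (c : Bool) (u : List Bool),
      Acc (jn (Φ k κ B A₀) B) c i u (bu (nx k i (P.eval u.length + 1).size.size)) →
      ins i (nx k i (P.eval u.length + 1).size.size) u
        (bu (nx k i (P.eval u.length + 1).size.size)) ∈ UU k κ (jn (Φ k κ B A₀) B) c := by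
    intro c u h
    obtain ⟨e1, e2, e3, e4⟩ := z_ins i (nx k i (P.eval u.length + 1).size.size) u
      (bu (nx k i (P.eval u.length + 1).size.size))
    obtain ⟨f1, f2, -⟩ := nx_spec hk i (P.eval u.length + 1).size.size
    have hlen : P.eval u.length < bu (nx k i (P.eval u.length + 1).size.size) := by
      have g1 := lt_bu_size (P.eval u.length + 1)
      have g2 : bu (P.eval u.length + 1).size.size ≤
          bu (nx k i (P.eval u.length + 1).size.size) :=
        Nat.pow_le_pow_right (by norm_num) (Nat.pow_le_pow_right (by norm_num) f2)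
      omega
    refine ⟨(grd_iff hk _).2 ⟨?_, ?_, ?_⟩, ?_, ?_⟩
    · rw [e2, e4]
    · rw [e3, e4]
      have := hPe u.length
      omega
    · rw [e1, e2]
      exact f1
    · rw [e2]
      exact hflag _ f1
    · rw [e1, e3, e4]
      exact h
  have hbig : ∀ u : List Bool, P.eval u.length ≤ bu (nx k i (P.eval u.length + 1).size.size) := by
    intro u
    obtain ⟨f1, f2, -⟩ := nx_spec hk i (P.eval u.length + 1).size.size
    have g1 := lt_bu_size (P.eval u.length + 1)
    have g2 : bu (P.eval u.length + 1).size.size ≤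
        bu (nx k i (P.eval u.length + 1).size.size) :=
      Nat.pow_le_pow_right (by norm_num) (Nat.pow_le_pow_right (by norm_num) f2)
    omega
  refine ⟨_, IsFP.of_poly (p_red hk i P), fun u hu => hmem false u ?_, fun u hu => hmem true u ?_⟩
  · unfold Acc
    rw [hcd0]
    exact hc₀ u _ (le_trans (by rw [hPe]; omega) (hbig u)) hu
  · unfold Acc
    rw [hcd1]
    exact hc₁ u _ (le_trans (by rw [hPe]; omega) (hbig u)) hu

end Pool.Agent.H96R.CP
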