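import Pool.Agent.H96R.CP.Patch
import Pool.Agent.H96R.DP2.Main

/-!
# Inseparable pairs relative to the changed random oracle
-/

set_option autoImplicit false

namespace Pool.Agent.H96R.CP

open MeasureTheory Pool.Agent.NPC Pool.Agent.H628R3.RO Pool.Agent.H96R.DP Pool.Agent.H96R.DP2

/-- the verifier for the string `[c]` -/
noncomputable def tr (c : Bool) : Alg where
  D := fun v => [true, decide ((unpair (unpair v).1).1 = [c])]
  poly := H622R2.polyTime_of_poly_list (Poly.cons (NPC.Poly.const true) (Poly.cons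
    (Poly.decide_eq (Poly.fst (poly_unpair.comp (Poly.fst poly_unpair))) (NPC.Poly.const _))
    (NPC.Poly.const [])))
  p := 1

theorem wit_tr (c : Bool) (x : List Bool) (O : Oracle) : Wit (tr c) 1 x O ↔ x = [c] := by
  unfold Wit
  have h1 : ∀ y, (tr c).out O (pairBits x y) = some [decide (x = [c])] := by
    intro y
    unfold Alg.out
    show (tr c).run O (pairBits x y) ((1 : Polynomial ℕ).eval _) [] = _
    rw [Polynomial.eval_one]
    have e1 : (tr c).D (pairBits (pairBits x y) []) = [true, decide (x = [c])] := by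
      show [true, decide ((unpair (unpair (pairBits (pairBits x y) [])).1).1 = [c])] = _
      simp only [unpair_pairBits]
    unfold Alg.run
    rw [e1]
  constructor
  · rintro ⟨y, -, h⟩
    rw [h1] at h
    simpa using h
  · intro h
    refine ⟨[], by simp, ?_⟩
    rw [h1, h]
    simp

theorem Φ_pos (k κ : ℕ) (B A : Oracle) (c i : ℕ) (w : List Bool) :
    Φ k κ B A (pos c i w) = A (pos c i w) := by
  apply Φ_eq_self
  intro j _ _ h
  have h1 : false ∈ pos c i w := by
    unfold pos
    simp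
  rw [h] at h1
  exact absurd (List.eq_of_mem_replicate h1) (by simp)

theorem Φ_vl (k κ : ℕ) (B A : Oracle) (m : ℕ) (κ' : Cand) :
    vl m κ' (Φ k κ B A) = vl m κ' A := by
  unfold vl
  apply List.map_congr_left
  intro i _
  exact Φ_pos k κ B A _ _ _

theorem Φ_Two (k κ : ℕ) (B A : Oracle) (n j : ℕ) : Φ k κ B A ∈ Two n j ↔ A ∈ Two n j := by
  unfold Two Same
  simp only [Set.mem_ofPred_eq, Φ_pos]

theorem Φ_LL (k κ : ℕ) (B A : Oracle) (V : Bool → Alg) (p : Bool → Polynomial ℕ)
    (b : Polynomial ℕ) (t : ℕ) (L : List (List Bool)) (n₀ : ℕ) (c : Bool) :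
    LL B V p b t L n₀ c (Φ k κ B A) = LL B V p b t L n₀ c A := by
  unfold LL
  simp only [Φ_vl]

/-- Relative to the changed oracle there is a disjoint pair of languages in `UP` that is not
separable by nonuniform algorithms of subexponential size. -/
theorem insep (k κ : ℕ) (B : Oracle) : ∀ᵐ A ∂randomOracle, ∃ L₀ L₁ : Set (List Bool),
    IsPair (IsUP (jn (Φ k κ B A) B)) L₀ L₁ ∧
      ¬ SubexpRed (jn (Φ k κ B A) B) L₀ L₁ {[false]} {[true]} := by
  obtain ⟨V, hV⟩ : ∃ V : Bool → Alg, V = tr := ⟨_, rfl⟩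
  obtain ⟨p, hp⟩ : ∃ p : Bool → Polynomial ℕ, p = fun _ => 1 := ⟨_, rfl⟩
  have hW : ∀ (c : Bool) (x : List Bool) (O : Oracle), Wit (V c) (p c) x O ↔ x = [c] := by
    intro c x O
    rw [hV, hp]
    exact wit_tr c x O
  obtain ⟨b, hb⟩ := exists_Bd V p
  have h2 : randomOracle (EE B V p b) = 0 := by
    have h3 := prob_EE B hb
    unfold prob at h3
    rwa [measureReal_eq_zero_iff (measure_ne_top _ _)] at h3
  have h3 : ∀ᵐ A ∂randomOracle, A ∉ EE B V p b := measure_eq_zero_iff_ae_notMem.1 h2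
  filter_upwards [h3] with A hA
  by_contra hcon
  push Not at hcon
  apply hA
  refine ⟨?_, ?_⟩
  · rintro n ⟨x, -, hx⟩
    have e1 := (hW false x _).1 (hx false)
    have e2 := (hW true x _).1 (hx true)
    rw [e1] at e2
    simp at e2
  · rintro t L ⟨k₀, hk⟩
    have hpair := isPair_LL hb t L (Tt b t k₀) (Φ k κ B A) B
      (fun k' hk' => by
        rw [Φ_Two]
        exact hk k' ((Tt_strictMono b t).le_iff_le.1 hk'))
    have h4 := hcon _ _ hpair
    rw [Φ_LL, Φ_LL] at h4
    obtain ⟨r, adv, F, hadv, hr, hF0, hF1⟩ := subexp_patch h4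
    obtain ⟨q, tt, hDr, -⟩ := Dr_spec V p r
    obtain ⟨N, hN⟩ := short_block hadv hDr
    refine ⟨r, max k₀ N, fun k' hk' => ?_⟩
    have hk1 : k₀ ≤ k' := (le_max_left _ _).trans hk'
    have hk3 : N ≤ Tt b t k' := ((le_max_right _ _).trans hk').trans (le_Tt b t k')
    have hk2 : Tt b t k₀ ≤ Tt b t k' := (Tt_strictMono b t).monotone hk1
    refine ⟨adv (Tt b t k' + 1 + nb (Tt b t k') (lv B V p b t L k')),
      hN _ hk3 _ (lv_le_Tt B V p b t L k'), fun c w hw => ?_⟩
    refine ⟨F (inst (Tt b t k') (vl (nb (Tt b t k') (lv B V p b t L k')) (c.toNat, w) A)), ?_, ?_⟩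
    · have e1 := hr (inst (Tt b t k') (vl (nb (Tt b t k') (lv B V p b t L k')) (c.toNat, w) A))
      have e2 : (inst (Tt b t k') (vl (nb (Tt b t k') (lv B V p b t L k')) (c.toNat, w) A)).length =
          Tt b t k' + 1 + nb (Tt b t k') (lv B V p b t L k') := by
        rw [length_inst, length_vl]
      rw [e2] at e1
      exact e1
    · rw [hW]
      cases c
      · exact hF0 _ ⟨k', hk2, w, mem_sn.1 hw, rfl⟩
      · exact hF1 _ ⟨k', hk2, w, mem_sn.1 hw, rfl⟩

end Pool.Agent.H96R.CP
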