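import Pool.Agent.H96R.CP.Base
import Pool.Agent.H96R.DP2.Dens2

/-!
# The flags tell the truth
-/

set_option autoImplicit false

namespace Pool.Agent.H96R.CP

open Pool.Agent.NPC Pool.Agent.H628R3.RO Pool.Agent.H96R.DP Pool.Agent.H673R2.OneTT

theorem length_ustep (n : ℕ) (s : List Bool × List Bool × Bool) :
    (ustep^[n] s).1.length + (ustep^[n] s).2.1.length ≤ s.1.length + s.2.1.length := by
  induction n generalizing s with
  | zero => exact le_rfl
  | succ n ih =>
    rw [Function.iterate_succ_apply]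
    refine (ih _).trans ?_
    obtain ⟨a, l, b⟩ := s
    unfold ustep
    cases b with
    | true => simp
    | false =>
      match l with
      | [] => simp
      | true :: [] => simp
      | true :: c :: l' => simp; omega
      | false :: l' => simp

theorem length_unpair (y : List Bool) : (unpair y).1.length ≤ y.length ∧
    (unpair y).2.length ≤ y.length := by
  have h := length_ustep y.length ([], y, false)
  unfold unpair
  simp only [List.length_reverse, List.length_nil] at h ⊢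
  omega

theorem two_le_bu (j : ℕ) : 2 ≤ bu j := by
  unfold bu
  calc 2 = 2 ^ 1 := rfl
    _ ≤ 2 ^ (2 ^ j) := Nat.pow_le_pow_right (by norm_num) Nat.one_le_two_pow

theorem length_fl_eq (κ j : ℕ) : (fl κ j).length = bu j ^ (2 ^ κ) := by
  rw [length_fl, bu, ← pow_mul, ← pow_add]

theorem le_bu (j : ℕ) : j < bu j := by
  unfold bu
  have h1 : j < 2 ^ j := Nat.lt_two_pow_self
  have h2 : 2 ^ j < 2 ^ (2 ^ j) := Nat.lt_two_pow_self
  omega

theorem exists_kappa (q : Polynomial ℕ) : ∃ κ₀, ∀ κ ≥ κ₀, ∀ m ≥ 2, q.eval (11 * m + 5) < m ^ (2 ^ κ) := by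
  obtain ⟨C, d, hC⟩ := DP2.poly_le q
  refine ⟨d + C * 16 ^ d, fun κ hκ m hm => ?_⟩
  have h1 : q.eval (11 * m + 5) ≤ C * (16 * m) ^ d := by
    refine (hC _ (by omega)).trans (Nat.mul_le_mul_left _ (Nat.pow_le_pow_left (by omega) _))
  have h2 : C * 16 ^ d < m ^ (C * 16 ^ d) :=
    Nat.lt_two_pow_self.trans_le (Nat.pow_le_pow_left hm _)
  calc q.eval (11 * m + 5) ≤ C * (16 * m) ^ d := h1
    _ = C * 16 ^ d * m ^ d := by rw [mul_pow]; ring
    _ < m ^ (C * 16 ^ d) * m ^ d := Nat.mul_lt_mul_of_pos_right h2 (by positivity)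
    _ = m ^ (C * 16 ^ d + d) := by rw [pow_add]
    _ ≤ m ^ (2 ^ κ) := by
        apply Nat.pow_le_pow_right (by omega)
        have : κ < 2 ^ κ := Nat.lt_two_pow_self
        omega

theorem Rd.le {k i j : ℕ} (hk : 0 < k) (h : Rd k i j) : 2 ^ i ≤ j ∧ k ∣ j ∧ 0 < j := by
  unfold Rd at h
  have h1 : j % (k * 2 ^ (i + 1)) ≤ j := Nat.mod_le _ _
  have h0 : 0 < 2 ^ i := by positivity
  have h2 : 2 ^ i ≤ k * 2 ^ i := Nat.le_mul_of_pos_left _ hk
  refine ⟨by omega, ?_, by omega⟩
  have h3 := Nat.div_add_mod j (k * 2 ^ (i + 1))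
  rw [h] at h3
  rw [← h3]
  exact Dvd.dvd.add (Dvd.dvd.mul_right (Dvd.intro _ rfl) _) (Dvd.intro _ rfl)

theorem length_num_le (i : ℕ) : (num i).length ≤ i := by
  unfold num
  rw [List.length_dropLast]
  have h1 : (Nat.bits i).length = i.size := (Nat.size_eq_bits_len i)
  rw [h1]
  have h2 : i.size ≤ i + 1 := Nat.size_le.2 (by
    have : i < 2 ^ i := Nat.lt_two_pow_self
    rw [pow_succ]; omega)
  omega

theorem length_cd_le (c : Bool) (i : ℕ) : (cd c i).length ≤ i := by
  unfold cd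
  have h1 := length_unpair (num i)
  have h2 := length_num_le i
  cases c
  · simp only [Bool.false_eq_true, if_false]; omega
  · simp only [if_true]; omega

/-- the flags depend on shorter strings only -/
theorem exists_local : ∃ κ₀, ∀ κ ≥ κ₀, ∀ (k : ℕ) (B A A' : Oracle) (j : ℕ), 0 < k →
    (∀ x : List Bool, x.length < (fl κ j).length → A x = A' x) →
    (Flag k (jn A B) j ↔ Flag k (jn A' B) j) := by
  obtain ⟨q, hq⟩ := uA.out_congr
  obtain ⟨κ₀, hκ₀⟩ := exists_kappa q
  refine ⟨κ₀, fun κ hκ k B A A' j hk h => ?_⟩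
  have h1 : ∀ x : List Bool, x.length ≤ q.eval (11 * bu j + 5) → jn A B x = jn A' B x := by
    apply jn_congr
    intro x hx
    apply h
    rw [length_fl_eq]
    exact hx.trans_lt (hκ₀ κ hκ _ (two_le_bu j))
  unfold Flag
  refine exists_congr fun i => and_congr_right fun hi => ?_
  obtain ⟨h2, -, -⟩ := Rd.le hk hi
  have h3 : i ≤ bu j := by
    have e1 : i < 2 ^ i := Nat.lt_two_pow_self
    have e2 := le_bu j
    omega
  unfold Viol
  refine exists_congr fun u => and_congr_right fun hu => ?_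
  have h4 : ∀ c, Acc (jn A B) c i u (bu j) ↔ Acc (jn A' B) c i u (bu j) := by
    intro c
    unfold Acc
    refine exists_congr fun w => and_congr_right fun hw => ?_
    have h5 : uA.out (jn A B) (pairBits (pairBits (cd c i) (pairBits u (List.replicate (bu j) true))) w)
        = uA.out (jn A' B) (pairBits (pairBits (cd c i) (pairBits u (List.replicate (bu j) true))) w) := by
      apply hq _ _ _ (11 * bu j + 5) ?_ h1
      have := length_cd_le c i
      simp only [Pool.Agent.H628R3.RO.length_pairBits, List.length_replicate]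
      omega
    rw [h5]
  rw [h4 false, h4 true]

/-- the flags of the changed oracle tell the truth -/
theorem flag_Φ : ∃ κ₀, ∀ κ ≥ κ₀, ∀ (k : ℕ) (B A₀ : Oracle) (j : ℕ), 0 < k → k ∣ j → 0 < j →
    (Φ k κ B A₀ (fl κ j) = true ↔ Flag k (jn (Φ k κ B A₀) B) j) := by
  obtain ⟨κ₀, hκ₀⟩ := exists_local
  refine ⟨κ₀, fun κ hκ k B A₀ j hk hkj hj => ?_⟩
  have h1 : Φ k κ B A₀ (fl κ j) = st k κ B A₀ (j + 1) (fl κ j) := by
    apply Φ_eq
    rw [length_fl, length_fl]
    exact Nat.pow_lt_pow_right (by norm_num) (Nat.pow_lt_pow_right (by norm_num) (by omega))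
  have h2 : st k κ B A₀ (j + 1) (fl κ j) = true ↔ Flag k (jn (st k κ B A₀ j) B) j := by
    have h3 : st k κ B A₀ (j + 1) (fl κ j) =
        @decide (Flag k (jn (st k κ B A₀ j) B) j) (Classical.propDecidable _) := by
      show (if fl κ j = fl κ j ∧ k ∣ j ∧ 0 < j then _ else _) = _
      rw [if_pos ⟨rfl, hkj, hj⟩]
    rw [h3]
    exact @decide_eq_true_iff _ (Classical.propDecidable _)
  rw [h1, h2]
  apply hκ₀ κ hκ k B _ _ j hk
  intro x hx
  exact (Φ_eq k κ B A₀ hx).symm

end Pool.Agent.H96R.CP
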