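import Pool.Agent.H96R.CP.Count
import Pool.Agent.H96R.CP.Insep
import Pool.Agent.H943R5.GC.N6

/-!
# The size of the set of oracles with a complete disjoint NP pair
-/

set_option autoImplicit false

namespace Pool.Agent.H96R.CP

open MeasureTheory Pool.Agent.NPC Pool.Agent.H628R3.RO Pool.Agent.H96R.DP Pool.Agent.H96R.DP2
open Pool.Agent.H620R2.Gauge (Null not_null_of ranO)

/-- The set of the oracles `A` such that, relative to the join of `A` and `B`, some disjoint `NP`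
pair is hard for the disjoint pairs of languages in `UP` under nonuniform reductions of
subexponential size. -/
def WeakComplete (B : Oracle) : Set Oracle :=
  {A | ∃ K₀ K₁, IsPair (IsNP (jn A B)) K₀ K₁ ∧
    ∀ L₀ L₁, IsPair (IsUP (jn A B)) L₀ L₁ → SubexpRed (jn A B) L₀ L₁ K₀ K₁}

/-- The set of the oracles `A` such that, relative to the join of `A` and `B`, there is a complete
disjoint `NP` pair, and some disjoint pair of languages in `UP` cannot be separated by a nonuniform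
algorithm of subexponential size. -/
def Nontrivial (B : Oracle) : Set Oracle :=
  {A | A ∈ HasComplete B ∧ ∃ L₀ L₁, IsPair (IsUP (jn A B)) L₀ L₁ ∧
    ¬ SubexpRed (jn A B) L₀ L₁ {[false]} {[true]}}

theorem ranO_eq : ranO = randomOracle := rfl

/-- the set is null for the gauges bounded infinitely often -/
theorem null_weakComplete (B : Oracle) (f : ℕ → ℝ) (C : ℝ)
    (hf : ∃ᶠ N : ℕ in Filter.atTop, f N ≤ C) : Null f (WeakComplete B) := by
  apply Pool.Agent.H943R5.GC.null_of_ae f C hf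
  filter_upwards [DP2.main B] with A hA
  rintro ⟨K₀, K₁, hK, h⟩
  obtain ⟨L₀, L₁, hL, hn⟩ := hA K₀ K₁ hK
  exact hn (h L₀ L₁ hL)

/-- almost every oracle can be changed at the flags only -/
theorem ae_nontrivial : ∃ κ₀, ∀ κ ≥ κ₀, ∀ (k : ℕ) (B : Oracle), 0 < k →
    (∀ A, Φ k κ B A ∈ HasComplete B) ∧ ∀ᵐ A ∂randomOracle, Φ k κ B A ∈ Nontrivial B := by
  obtain ⟨κ₀, h⟩ := complete_UU
  refine ⟨κ₀, fun κ hκ k B hk => ⟨fun A => ⟨_, _, h κ hκ k B A hk⟩, ?_⟩⟩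
  filter_upwards [insep k κ B] with A hA
  exact ⟨⟨_, _, h κ hκ k B A hk⟩, hA⟩

/-- the set is not null for the gauge `ε log log log N` -/
theorem not_null (B : Oracle) (f : ℕ → ℝ) (ε c : ℝ) (hε : 0 < ε)
    (hf : ∀ N : ℕ, ε * (Nat.log 2 (Nat.log 2 (Nat.log 2 N)) : ℝ) ≤ f N + c) :
    ¬ Null f (Nontrivial B) := by
  obtain ⟨κ, h⟩ := ae_nontrivial
  obtain ⟨k, hk⟩ := exists_nat_ge (1 / ε)
  have hk0 : 0 < k := by
    rcases Nat.eq_zero_or_pos k with h0 | h0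
    · rw [h0, Nat.cast_zero] at hk
      have : 0 < 1 / ε := by positivity
      linarith
    · exact h0
  obtain ⟨-, hae⟩ := h κ le_rfl k B hk0
  have hG : 0 < ranO {A | Φ k κ B A ∈ Nontrivial B} := by
    have e1 : randomOracle {A | Φ k κ B A ∈ Nontrivial B} = randomOracle Set.univ :=
      measure_congr (Filter.eventuallyEq_univ.2 hae)
    rw [ranO_eq, e1, measure_univ]
    exact one_pos
  refine not_null_of f {A | Φ k κ B A ∈ Nontrivial B} hG (Φ k κ B) (TT k κ)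
    (fun A₀ => Φ_eq_off k κ B A₀) c (fun N => ?_) (Nontrivial B) (fun A hA => hA)
  refine le_trans ?_ (hf N)
  have h1 := card_TT hk0 κ N
  obtain ⟨ℓ, hℓ⟩ : ∃ ℓ, ℓ = Nat.log 2 (Nat.log 2 (Nat.log 2 N)) := ⟨_, rfl⟩
  rw [← hℓ] at h1 ⊢
  have h2 : ((ℓ / k : ℕ) : ℝ) ≤ (ℓ : ℝ) / k := Nat.cast_div_le
  have h3 : (ℓ : ℝ) / k ≤ ε * ℓ := by
    have hk' : (0 : ℝ) < k := by exact_mod_cast hk0
    rw [div_le_iff₀ hk']
    have h4 : 1 ≤ ε * k := by
      rw [div_le_iff₀ hε] at hk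
      linarith
    have h5 : (0 : ℝ) ≤ ℓ := Nat.cast_nonneg _
    nlinarith
  refine le_trans ?_ (h2.trans h3)
  exact_mod_cast h1

theorem null_mono {f : ℕ → ℝ} {X Y : Set Oracle} (h : X ⊆ Y) (hY : Null f Y) : Null f X := by
  intro δ hδ
  obtain ⟨S, h1, h2⟩ := hY δ hδ
  exact ⟨S, fun A hA => h1 A (h hA), h2⟩

theorem hasComplete_sub (B : Oracle) : HasComplete B ⊆ WeakComplete B := by
  rintro A ⟨K₀, K₁, hK, h⟩
  refine ⟨K₀, K₁, hK, fun L₀ L₁ hL => subexpRed_of_redPair (h L₀ L₁ ⟨?_, ?_, hL.2.2⟩)⟩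
  · obtain ⟨V, p, hV, h1, -⟩ := hL.1
    exact ⟨V, p, hV, h1⟩
  · obtain ⟨V, p, hV, h1, -⟩ := hL.2.1
    exact ⟨V, p, hV, h1⟩

/-- The oracles `A` and `A₀` differ at most at the strings of `2 ^ (2 ^ (k s))` ones, for
`s = 1, 2, 3, ...`. -/
def Near (k : ℕ) (A₀ A : Oracle) : Prop :=
  ∀ x, A x ≠ A₀ x → ∃ s : ℕ, 1 ≤ s ∧ x = List.replicate (2 ^ (2 ^ (k * s))) true

theorem near (k κ : ℕ) (B A₀ : Oracle) : Near k A₀ (Φ k (k * κ) B A₀) := by
  intro x hx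
  by_contra hcon
  apply hx
  apply Φ_eq_off
  rintro ⟨s, hs, h⟩
  refine hcon ⟨s + κ, by omega, ?_⟩
  rw [h]
  unfold fl
  rw [mul_add]

theorem distance (B : Oracle) (k : ℕ) (hk : 1 ≤ k) :
    (∀ A₀, ∃ A ∈ HasComplete B, Near k A₀ A) ∧
      ∀ᵐ A₀ ∂randomOracle, ∃ A ∈ Nontrivial B, Near k A₀ A := by
  obtain ⟨κ, h⟩ := ae_nontrivial
  have h1 := h (k * κ) (Nat.le_mul_of_pos_left _ hk) k B hk
  refine ⟨fun A₀ => ⟨_, h1.1 A₀, near k κ B A₀⟩, ?_⟩
  filter_upwards [h1.2] with A₀ hA₀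
  exact ⟨_, hA₀, near k κ B A₀⟩

end Pool.Agent.H96R.CP
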