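import Pool.Agent.H96R.CP.Hard
import Pool.Agent.H96R.DP2.Red

/-!
# Algorithms with the flags as advice
-/

set_option autoImplicit false

namespace Pool.Agent.H96R.CP

open Pool.Agent.NPC Pool.Agent.H628R3.RO Pool.Agent.H96R.DP

/-- `q` is the question for the flag of round `j` -/
def isq (κ : ℕ) (q : List Bool) (j : ℕ) : Bool :=
  q.all id && decide (cpow (cpow (j + κ) (q.length + 1)) (q.length + 1) + 1 = q.length)

theorem isq_iff {κ : ℕ} {q : List Bool} {j : ℕ} : isq κ q j = true ↔ q = true :: fl κ j := by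
  unfold isq
  rw [Bool.and_eq_true, List.all_eq_true, decide_eq_true_eq]
  have h1 : cpow (cpow (j + κ) (q.length + 1)) (q.length + 1) + 1 = q.length ↔
      2 ^ (2 ^ (j + κ)) + 1 = q.length := by
    obtain ⟨m, hm⟩ : ∃ m, m = q.length := ⟨_, rfl⟩
    rw [← hm]
    unfold cpow
    constructor
    · intro h
      have e1 : 2 ^ (min (2 ^ (j + κ)) (m + 1)) + 1 = m := by omega
      have e2 : min (2 ^ (j + κ)) (m + 1) < 2 ^ (min (2 ^ (j + κ)) (m + 1)) :=
        Nat.lt_two_pow_self
      have e3 : min (2 ^ (j + κ)) (m + 1) = 2 ^ (j + κ) := by omega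
      rwa [e3] at e1
    · intro h
      have e1 : 2 ^ (j + κ) < 2 ^ (2 ^ (j + κ)) := Nat.lt_two_pow_self
      rw [min_eq_left (by omega : 2 ^ (j + κ) ≤ m + 1)]
      omega
  rw [h1]
  constructor
  · rintro ⟨h2, h3⟩
    have h4 : q = List.replicate q.length true := List.eq_replicate_iff.2 ⟨rfl, fun b hb => h2 b hb⟩
    rw [h4, ← h3, List.replicate_succ]
    rfl
  · intro h
    have h4 : q = List.replicate (2 ^ (2 ^ (j + κ)) + 1) true := by
      rw [h, List.replicate_succ]
      rfl
    refine ⟨fun b hb => ?_, ?_⟩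
    · rw [h4] at hb
      exact List.eq_of_mem_replicate hb
    · rw [h4, List.length_replicate]

/-- the answer `b` to the question `q`, corrected by the list `τ` of the flags -/
def pa (κ : ℕ) (τ q : List Bool) (b : Bool) : Bool :=
  (List.range τ.length).any (fun j => isq κ q j && τ.getD j false) ||
    (b && !(List.range τ.length).any (fun j => isq κ q j))

theorem pa_flag {κ : ℕ} {τ : List Bool} {j : ℕ} (hj : j < τ.length) (b : Bool) :
    pa κ τ (true :: fl κ j) b = τ.getD j false := by
  unfold pa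
  have inj : ∀ j', isq κ (true :: fl κ j) j' = true ↔ j' = j := by
    intro j'
    rw [isq_iff]
    constructor
    · intro h
      have h1 := congrArg List.length h
      rw [List.length_cons, List.length_cons, length_fl, length_fl] at h1
      have h2 : 2 ^ (j + κ) = 2 ^ (j' + κ) := Nat.pow_right_injective le_rfl (by simpa using h1)
      have h3 : j + κ = j' + κ := Nat.pow_right_injective le_rfl h2
      omega
    · rintro rfl
      rfl
  have h1 : (List.range τ.length).any (fun j' => isq κ (true :: fl κ j) j') = true := by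
    rw [List.any_eq_true]
    exact ⟨j, List.mem_range.2 hj, (inj j).2 rfl⟩
  rw [h1, Bool.not_true, Bool.and_false, Bool.or_false, Bool.eq_iff_iff, List.any_eq_true]
  constructor
  · rintro ⟨j', -, h⟩
    rw [Bool.and_eq_true, inj] at h
    rw [← h.1]
    exact h.2
  · intro h
    refine ⟨j, List.mem_range.2 hj, ?_⟩
    rw [Bool.and_eq_true]
    exact ⟨(inj j).2 rfl, h⟩

theorem pa_other {κ : ℕ} {τ q : List Bool} (h : ∀ j < τ.length, q ≠ true :: fl κ j) (b : Bool) :
    pa κ τ q b = b := by
  unfold pa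
  have h1 : ∀ j ∈ List.range τ.length, isq κ q j = false := by
    intro j hj
    rw [← Bool.not_eq_true, isq_iff]
    exact h j (List.mem_range.1 hj)
  have h2 : (List.range τ.length).any (fun j => isq κ q j && τ.getD j false) = false := by
    rw [List.any_eq_false]
    intro j hj
    rw [h1 j hj]
    simp
  have h3 : (List.range τ.length).any (fun j => isq κ q j) = false := by
    rw [List.any_eq_false]
    intro j hj
    rw [h1 j hj]
    simp
  rw [h2, h3]
  simp

/-- the corrected answers -/
def cor (κ : ℕ) (D : List Bool → List Bool) (x τ ans : List Bool) : List Bool :=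
  ans.foldl (fun c b => c ++ [pa κ τ (D (pairBits x c)).tail b]) []

theorem cor_concat (κ : ℕ) (D : List Bool → List Bool) (x τ ans : List Bool) (b : Bool) :
    cor κ D x τ (ans ++ [b]) = cor κ D x τ ans ++
      [pa κ τ (D (pairBits x (cor κ D x τ ans))).tail b] := by
  unfold cor
  rw [List.foldl_append]
  rfl

theorem length_cor (κ : ℕ) (D : List Bool → List Bool) (x τ ans : List Bool) :
    (cor κ D x τ ans).length = ans.length := by
  induction ans using List.reverseRecOn with
  | nil => rfl
  | append_singleton l b ih =>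
    rw [cor_concat, List.length_append, List.length_append, ih]
    rfl

/-- the next action -/
def pD (κ : ℕ) (D : List Bool → List Bool) (v : List Bool) : List Bool :=
  D (pairBits (pairBits (unpair (unpair v).1).1 (unpair (unpair (unpair v).1).2).1)
    (cor κ D (pairBits (unpair (unpair v).1).1 (unpair (unpair (unpair v).1).2).1)
      (unpair (unpair (unpair v).1).2).2 (unpair v).2))

section

variable {α : Type} [TEnc α]

theorem cpow_min (x c : ℕ) : cpow (min x c) c = cpow x c := by
  unfold cpow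
  rcases le_total x c with h | h
  · rw [min_eq_left h]
  · rw [min_eq_right h]
    have h1 : c < 2 ^ c := Nat.lt_two_pow_self
    have h2 : 2 ^ c ≤ 2 ^ x := Nat.pow_le_pow_right (by norm_num) h
    omega

theorem u_cpow' {x c : α → ℕ} (hx : Poly x) (hc : UPoly c) :
    UPoly (fun a => cpow (x a) (c a)) := by
  refine (u_cpow (UPoly.of_le (Poly.min hx hc.toPoly) hc fun a => min_le_right _ _) hc).congr
    fun a => ?_
  beta_reduce
  rw [cpow_min]

theorem p_isq (κ : ℕ) {q : α → List Bool} {j : α → ℕ} (hq : Poly q) (hj : Poly j) :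
    Poly (fun a => isq κ (q a) (j a)) := by
  unfold isq
  have h1 : UPoly (fun a => (q a).length + 1) := (UPoly.length hq).add (UPoly.const 1)
  have h2 := u_cpow' (u_cpow' (Poly.add hj (NPC.Poly.const κ)) h1).toPoly h1
  exact Poly.and (p_all_id hq) (Poly.decide_eq (h2.add (UPoly.const 1)).toPoly (Poly.length hq))

theorem p_pa (κ : ℕ) {τ q : α → List Bool} {b : α → Bool} (hτ : Poly τ) (hq : Poly q)
    (hb : Poly b) : Poly (fun a => pa κ (τ a) (q a) (b a)) := by
  unfold pa
  have h1 : Poly (fun a => List.range (τ a).length) := Poly.range_length hτ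
  have h2 : Poly (fun x : α × ℕ => isq κ (q x.1) x.2) :=
    p_isq κ (hq.comp (Poly.fst Poly.id)) (Poly.snd Poly.id)
  have h3 : Poly (fun x : α × ℕ => (τ x.1).getD x.2 false) :=
    Poly.getD (hτ.comp (Poly.fst Poly.id)) (Poly.snd Poly.id) (NPC.Poly.const false)
  exact Poly.or (Poly.any h1 (Poly.and h2 h3)) (Poly.and hb (Poly.not (Poly.any h1 h2)))

theorem p_cor (κ : ℕ) {D : List Bool → List Bool} (hD : Poly D) {x τ ans : α → List Bool}
    (hx : Poly x) (hτ : Poly τ) (ha : Poly ans) :
    Poly (fun a => cor κ D (x a) (τ a) (ans a)) := by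
  obtain ⟨r, hr⟩ := ha.sz_le
  unfold cor
  refine Poly.foldl (l := ans) (s := fun _ => ([] : List Bool))
    (F := fun a c b => c ++ [pa κ (τ a) (D (pairBits (x a) c)).tail b]) ha (NPC.Poly.const _)
    ?_ (Polynomial.C 4 * r + Polynomial.C 1) ?_
  · have h1 : Poly (fun p : α × List Bool × Bool => p.2.1) := Poly.fst (Poly.snd Poly.id)
    have h2 : Poly (fun p : α × List Bool × Bool => D (pairBits (x p.1) p.2.1)) :=
      hD.comp (H622R2.poly_pairBits (hx.comp (Poly.fst Poly.id)) h1)
    exact Poly.append h1 (Poly.cons (p_pa κ (hτ.comp (Poly.fst Poly.id)) (Poly.tail h2)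
      (Poly.snd (Poly.snd Poly.id))) (NPC.Poly.const []))
  · intro a k hk
    have h1 := length_cor κ D (x a) (τ a) ((ans a).take k)
    unfold cor at h1
    have h2 := sz_listBool_le (((ans a).take k).foldl
      (fun c b => c ++ [pa κ (τ a) (D (pairBits (x a) c)).tail b]) [])
    rw [h1, List.length_take] at h2
    have h3 := length_lt_sz (ans a)
    have h4 := hr a
    simp only [Polynomial.eval_add, Polynomial.eval_mul, Polynomial.eval_C]
    omega

theorem p_pD (κ : ℕ) {D : List Bool → List Bool} (hD : Poly D) : Poly (pD κ D) := by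
  unfold pD
  have h1 : Poly (fun v : List Bool => (unpair v).1) := Poly.fst poly_unpair
  have h2 : Poly (fun v : List Bool => (unpair v).2) := Poly.snd poly_unpair
  have h3 : Poly (fun v : List Bool => (unpair (unpair v).1).1) := Poly.fst (poly_unpair.comp h1)
  have h4 : Poly (fun v : List Bool => (unpair (unpair v).1).2) := Poly.snd (poly_unpair.comp h1)
  have h5 : Poly (fun v : List Bool => (unpair (unpair (unpair v).1).2).1) :=
    Poly.fst (poly_unpair.comp h4)
  have h6 : Poly (fun v : List Bool => (unpair (unpair (unpair v).1).2).2) :=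
    Poly.snd (poly_unpair.comp h4)
  have h7 := H622R2.poly_pairBits h3 h5
  exact hD.comp (H622R2.poly_pairBits h7 (p_cor κ hD h7 h6 h2))

end

/-- the algorithm `M` with the flags as advice -/
noncomputable def pM (κ : ℕ) (M : Alg) : Alg where
  D := pD κ M.D
  poly := H622R2.polyTime_of_poly_list (p_pD κ (H622R2.poly_of_polyTime M.poly))
  p := M.p

theorem pM_run (O : Oracle) (κ : ℕ) (M : Alg) (x a τ : List Bool) : ∀ (n : ℕ) (ans : List Bool),
    (pM κ M).run O (pairBits x (pairBits a τ)) n ans =
      M.run (fun q => pa κ τ q (O q)) (pairBits x a) n (cor κ M.D (pairBits x a) τ ans) := by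
  intro n
  induction n with
  | zero => intro ans; rfl
  | succ n ih =>
    intro ans
    have h1 : (pM κ M).D (pairBits (pairBits x (pairBits a τ)) ans) =
        M.D (pairBits (pairBits x a) (cor κ M.D (pairBits x a) τ ans)) := by
      show pD κ M.D _ = _
      unfold pD
      simp only [unpair_pairBits]
    rw [Alg.run, Alg.run, h1]
    rcases hq : M.D (pairBits (pairBits x a) (cor κ M.D (pairBits x a) τ ans)) with _ | ⟨c, q⟩
    · rfl
    · cases c with
      | true => rfl
      | false =>
        simp only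
        rw [ih, cor_concat, hq, List.tail_cons]

theorem run_mono (M : Alg) (O : Oracle) (x : List Bool) : ∀ (n : ℕ) (a z : List Bool),
    M.run O x n a = some z → ∀ n' ≥ n, M.run O x n' a = some z := by
  intro n
  induction n with
  | zero => intro a z h; simp [Alg.run] at h
  | succ n ih =>
    intro a z h n' hn'
    obtain ⟨n', rfl⟩ : ∃ k, n' = k + 1 := ⟨n' - 1, by omega⟩
    rw [Alg.run] at h ⊢
    rcases hq : M.D (pairBits x a) with _ | ⟨c, q⟩
    · rw [hq] at h
      exact h
    · cases c with
      | true =>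
        rw [hq] at h
        exact h
      | false =>
        rw [hq] at h
        exact ih _ _ h n' (by omega)

theorem pM_out (O : Oracle) (κ : ℕ) (M : Alg) (x a τ z : List Bool)
    (h : M.out (fun q => pa κ τ q (O q)) (pairBits x a) = some z) :
    (pM κ M).out O (pairBits x (pairBits a τ)) = some z := by
  unfold Alg.out at h ⊢
  rw [pM_run]
  refine run_mono _ _ _ _ _ _ h _ (eval_mono M.p ?_)
  simp only [H628R3.RO.length_pairBits]
  omega

theorem exists_lin {ε : ℝ} (hε : 0 < ε) (c : ℕ) :
    ∃ n₀ : ℕ, ∀ n ≥ n₀, (c : ℝ) * ((n : ℝ) + 1) ≤ (2 : ℝ) ^ (ε * (n : ℝ)) := by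
  obtain ⟨r, hr⟩ : ∃ r : ℝ, r = (2 : ℝ) ^ ε := ⟨_, rfl⟩
  have hr1 : 1 < r := by rw [hr]; exact Real.one_lt_rpow (by norm_num) hε
  have h1 := tendsto_pow_const_div_const_pow_of_one_lt 1 hr1
  have h2 := tendsto_pow_atTop_atTop_of_one_lt hr1
  have hpos : (0 : ℝ) < 1 / (2 * (c + 1)) := by positivity
  have e1 := h1.eventually (gt_mem_nhds hpos)
  have e2 := h2.eventually_ge_atTop (2 * (c : ℝ))
  obtain ⟨n₀, hn₀⟩ := Filter.eventually_atTop.1 (e1.and e2)
  refine ⟨n₀, fun n hn => ?_⟩
  obtain ⟨f1, f2⟩ := hn₀ n hn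
  have hrn : (2 : ℝ) ^ (ε * (n : ℝ)) = r ^ n := by
    rw [hr, ← Real.rpow_natCast, ← Real.rpow_mul (by norm_num)]
  rw [hrn]
  have hpn : 0 < r ^ n := by positivity
  rw [pow_one, div_lt_div_iff₀ hpn (by positivity)] at f1
  have hc : (0 : ℝ) ≤ c := Nat.cast_nonneg c
  have hn0 : (0 : ℝ) ≤ n := Nat.cast_nonneg n
  nlinarith

theorem size_le_lin (q : Polynomial ℕ) : ∃ c : ℕ, ∀ n y : ℕ, 0 < y → y ≤ 2 ^ (n + 2) →
    (q.eval y).size ≤ c * (n + 1) := by
  obtain ⟨C, d, hC⟩ := DP2.poly_le q
  refine ⟨C + 2 * d + 1, fun n y hy h => ?_⟩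
  rw [Nat.size_le]
  have h1 := hC y hy
  have h2 : y ^ d ≤ 2 ^ ((n + 2) * d) := by
    rw [pow_mul]
    exact Nat.pow_le_pow_left h d
  have h3 : C < 2 ^ C := Nat.lt_two_pow_self
  calc q.eval y ≤ C * y ^ d := h1
    _ ≤ C * 2 ^ ((n + 2) * d) := Nat.mul_le_mul_left _ h2
    _ < 2 ^ C * 2 ^ ((n + 2) * d) := Nat.mul_lt_mul_of_pos_right h3 (by positivity)
    _ = 2 ^ (C + (n + 2) * d) := by rw [pow_add]
    _ ≤ 2 ^ ((C + 2 * d + 1) * (n + 1)) := by
        apply Nat.pow_le_pow_right (by norm_num)
        nlinarith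

/-- the places of the flags do not matter for nonuniform reductions -/
theorem subexp_patch {k κ : ℕ} {B A : Oracle} {L₀ L₁ K₀ K₁ : Set (List Bool)}
    (h : DP2.SubexpRed (jn (Φ k κ B A) B) L₀ L₁ K₀ K₁) : DP2.SubexpRed (jn A B) L₀ L₁ K₀ K₁ := by
  obtain ⟨M, adv, F, hadv, hF, h0, h1⟩ := h
  obtain ⟨q, hq⟩ := M.out_congr
  -- the number of flags needed
  set J : ℕ → ℕ := fun n => (q.eval (2 * n + 1 + (adv n).length)).size with hJ
  refine ⟨pM κ M, fun n => pairBits (adv n) ((List.range (J n)).map fun j => Φ k κ B A (fl κ j)),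
    F, ?_, fun x => ?_, h0, h1⟩
  · intro ε hε
    obtain ⟨c, hc⟩ := size_le_lin q
    obtain ⟨n₁, hn₁⟩ := hadv (ε / 2) (by positivity)
    obtain ⟨n₂, hn₂⟩ := hadv 1 (by positivity)
    obtain ⟨n₃, hn₃⟩ := exists_lin (ε := ε / 2) (by positivity) (c + 3)
    refine ⟨max n₁ (max n₂ n₃), fun n hn => ?_⟩
    have k1 := hn₁ n ((le_max_left _ _).trans hn)
    have k2 := hn₂ n (((le_max_left _ _).trans (le_max_right _ _)).trans hn)
    have k3 := hn₃ n (((le_max_right _ _).trans (le_max_right _ _)).trans hn)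
    rw [H628R3.RO.length_pairBits, List.length_map, List.length_range]
    have k4 : (adv n).length ≤ 2 ^ n := by
      rw [one_mul, Real.rpow_natCast] at k2
      exact_mod_cast k2
    have k5 : J n ≤ c * (n + 1) := by
      apply hc n _ (by omega)
      have e1 : n < 2 ^ n := Nat.lt_two_pow_self
      have e2 : 2 ^ (n + 2) = 4 * 2 ^ n := by rw [pow_add]; ring
      omega
    have k6 : (2 : ℝ) ^ (ε * (n : ℝ)) = (2 : ℝ) ^ (ε / 2 * (n : ℝ)) * (2 : ℝ) ^ (ε / 2 * (n : ℝ)) := by
      rw [← Real.rpow_add (by norm_num)]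
      congr 1
      ring
    have k7 : (J n : ℝ) ≤ c * ((n : ℝ) + 1) := by exact_mod_cast k5
    rw [k6]
    push_cast at k3 ⊢
    obtain ⟨t, ht⟩ : ∃ t : ℝ, t = (2 : ℝ) ^ (ε / 2 * (n : ℝ)) := ⟨_, rfl⟩
    rw [← ht] at k1 k3 ⊢
    have hn0 : (0 : ℝ) ≤ n := Nat.cast_nonneg n
    have hc0 : (0 : ℝ) ≤ c := Nat.cast_nonneg c
    have k8 : 3 ≤ t := by nlinarith
    nlinarith
  · apply pM_out
    rw [← hF x]
    refine hq _ _ _ (2 * x.length + 1 + (adv x.length).length) ?_ ?_
    · rw [H628R3.RO.length_pairBits]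
    · intro y hy
      have hlen : ((List.range (J x.length)).map fun j => Φ k κ B A (fl κ j)).length =
          J x.length := by
        rw [List.length_map, List.length_range]
      by_cases hfl : ∃ j, y = true :: fl κ j
      · obtain ⟨j, rfl⟩ := hfl
        have h2 : j < J x.length := by
          have e1 := lt_length_fl κ j
          rw [List.length_cons] at hy
          rw [hJ]
          rw [Nat.lt_size]
          have e2 : 2 ^ j ≤ (fl κ j).length := by
            rw [length_fl]
            exact Nat.pow_le_pow_right (by norm_num) (le_trans (Nat.le_add_right _ _)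
              Nat.lt_two_pow_self.le)
          omega
        rw [pa_flag (by rw [hlen]; exact h2)]
        rw [List.getD_eq_getElem _ _ (by rw [hlen]; exact h2), List.getElem_map,
          List.getElem_range]
        rfl
      · rw [pa_other (fun j _ hj => hfl ⟨j, hj⟩)]
        match y, hfl with
        | [], _ => rfl
        | false :: y, _ => rfl
        | true :: y, hfl =>
          show A y = Φ k κ B A y
          symm
          apply Φ_eq_self
          rintro j - - rfl
          exact hfl ⟨j, rfl⟩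

end Pool.Agent.H96R.CP
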