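import Pool.Agent.H96R.CP.Local
import Pool.Agent.H96R.DP.PTime

/-!
# The universal pair
-/

set_option autoImplicit false

namespace Pool.Agent.H96R.CP

open Pool.Agent.NPC Pool.Agent.H628R3.RO Pool.Agent.H96R.DP Pool.Agent.H673R2.OneTT

/-- the code number in the instance `z` -/
def zi (z : List Bool) : ℕ := (unpair z).1.length
/-- the number of the round in the instance `z` -/
def zj (z : List Bool) : ℕ := (unpair (unpair z).2).1.length
/-- the input in the instance `z` -/
def zu (z : List Bool) : List Bool := (unpair (unpair (unpair z).2).2).1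
/-- the budget in the instance `z` -/
def zm (z : List Bool) : ℕ := (unpair (unpair (unpair z).2).2).2.length

/-- the instance with code number `i`, round `j`, input `u` and budget `m` -/
def ins (i j : ℕ) (u : List Bool) (m : ℕ) : List Bool :=
  pairBits (List.replicate i true) (pairBits (List.replicate j true)
    (pairBits u (List.replicate m true)))

theorem z_ins (i j : ℕ) (u : List Bool) (m : ℕ) : zi (ins i j u m) = i ∧ zj (ins i j u m) = j ∧
    zu (ins i j u m) = u ∧ zm (ins i j u m) = m := by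
  unfold zi zj zu zm ins
  simp only [unpair_pairBits, List.length_replicate, and_self]

/-- the guard -/
def grd (k : ℕ) (z : List Bool) : Bool :=
  (decide (cpow (cpow (zj z) (zm z + 1)) (zm z + 1) = zm z) &&
    decide ((zu z).length ≤ zm z)) &&
  (decide (cpow (zi z) (zj z + 1) ≤ zj z) &&
    decide (zj z % (2 * k * cpow (zi z) (zj z + 1)) = k * cpow (zi z) (zj z + 1)))

theorem grd_iff {k : ℕ} (hk : 0 < k) (z : List Bool) : grd k z = true ↔
    zm z = bu (zj z) ∧ (zu z).length ≤ zm z ∧ Rd k (zi z) (zj z) := by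
  unfold grd
  simp only [Bool.and_eq_true, decide_eq_true_eq]
  have h1 : cpow (cpow (zj z) (zm z + 1)) (zm z + 1) = zm z ↔ zm z = bu (zj z) := by
    unfold cpow bu
    constructor
    · intro h
      have e1 : 2 ^ (min (2 ^ zj z) (zm z + 1)) = zm z := by omega
      have e2 : min (2 ^ zj z) (zm z + 1) < zm z := by
        conv_rhs => rw [← e1]
        exact Nat.lt_two_pow_self
      have e3 : min (2 ^ zj z) (zm z + 1) = 2 ^ zj z := by omega
      rw [e3] at e1
      exact e1.symm
    · intro h
      have e1 : 2 ^ zj z < zm z := by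
        rw [h]
        exact Nat.lt_two_pow_self
      rw [min_eq_left (by omega : 2 ^ zj z ≤ zm z + 1), ← h]
      omega
  have h2 : (cpow (zi z) (zj z + 1) ≤ zj z ∧
      zj z % (2 * k * cpow (zi z) (zj z + 1)) = k * cpow (zi z) (zj z + 1)) ↔
      Rd k (zi z) (zj z) := by
    have e0 : ∀ c, 2 ^ zi z = c → k * 2 ^ (zi z + 1) = 2 * k * c := by
      rintro c rfl
      rw [pow_succ]; ring
    constructor
    · rintro ⟨e1, e2⟩
      have e3 : cpow (zi z) (zj z + 1) = 2 ^ zi z := by
        unfold cpow at e1 ⊢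
        omega
      rw [e3] at e2
      unfold Rd
      rw [e0 _ rfl]
      exact e2
    · intro h
      obtain ⟨e1, -, -⟩ := Rd.le hk h
      have e3 : cpow (zi z) (zj z + 1) = 2 ^ zi z := by
        unfold cpow
        omega
      rw [e3]
      refine ⟨e1, ?_⟩
      unfold Rd at h
      rw [e0 _ rfl] at h
      exact h
  rw [h1, h2]
  tauto

/-- half `c` of the universal pair -/
def UU (k κ : ℕ) (O : Oracle) (c : Bool) : Set (List Bool) :=
  {z | grd k z = true ∧ O (true :: fl κ (zj z)) = false ∧ Acc O c (zi z) (zu z) (zm z)}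

section

variable {α : Type} [TEnc α]

theorem u_zi {z : α → List Bool} (hz : Poly z) : UPoly (fun a => zi (z a)) :=
  UPoly.length (Poly.fst (poly_unpair.comp hz))

theorem u_zj {z : α → List Bool} (hz : Poly z) : UPoly (fun a => zj (z a)) :=
  UPoly.length (Poly.fst (poly_unpair.comp (Poly.snd (poly_unpair.comp hz))))

theorem p_zu {z : α → List Bool} (hz : Poly z) : Poly (fun a => zu (z a)) :=
  Poly.fst (poly_unpair.comp (Poly.snd (poly_unpair.comp (Poly.snd (poly_unpair.comp hz)))))

theorem u_zm {z : α → List Bool} (hz : Poly z) : UPoly (fun a => zm (z a)) :=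
  UPoly.length (Poly.snd (poly_unpair.comp (Poly.snd (poly_unpair.comp
    (Poly.snd (poly_unpair.comp hz))))))

theorem p_grd (k : ℕ) {z : α → List Bool} (hz : Poly z) : Poly (fun a => grd k (z a)) := by
  unfold grd
  have hi := u_zi hz
  have hj := u_zj hz
  have hm := u_zm hz
  have hm1 : UPoly (fun a => zm (z a) + 1) := hm.add (UPoly.const 1)
  have hj1 : UPoly (fun a => zj (z a) + 1) := hj.add (UPoly.const 1)
  have h1 := u_cpow (u_cpow hj hm1) hm1
  have h2 := u_cpow hi hj1
  refine Poly.and (Poly.and (Poly.decide_eq h1.toPoly hm.toPoly)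
    (Poly.decide_le (Poly.length (p_zu hz)) hm.toPoly)) (Poly.and
    (Poly.decide_le h2.toPoly hj.toPoly) (Poly.decide_eq (Poly.mod hj.toPoly
      (Poly.mul (NPC.Poly.const (2 * k)) h2.toPoly)) (Poly.mul (NPC.Poly.const k) h2.toPoly)))

theorem p_num {i : α → ℕ} (hi : Poly i) : Poly (fun a => num (i a)) := by
  unfold num
  refine (Poly.reverse (Poly.tail (Poly.reverse (Poly.natBits hi)))).congr fun a => ?_
  rw [← List.dropLast_reverse, List.reverse_reverse]

theorem p_cd (c : Bool) {i : α → ℕ} (hi : Poly i) : Poly (fun a => cd c (i a)) := by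
  unfold cd
  cases c
  · simp only [Bool.false_eq_true, if_false]
    exact Poly.fst (poly_unpair.comp (p_num hi))
  · simp only [if_true]
    exact Poly.snd (poly_unpair.comp (p_num hi))

theorem u_powc {m : α → ℕ} (hm : UPoly m) : ∀ e : ℕ, UPoly (fun a => m a ^ e)
  | 0 => by simpa using UPoly.const 1
  | e + 1 => by
    have h := (u_powc hm e).mul hm
    simpa only [pow_succ] using h

end

theorem fl_eq_replicate (κ j : ℕ) : fl κ j = List.replicate (bu j ^ (2 ^ κ)) true := by
  unfold fl bu
  congr 1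
  rw [← pow_mul, ← pow_add]

theorem zm_le (z : List Bool) : zm z ≤ z.length := by
  unfold zm
  have h1 := (length_unpair z).2
  have h2 := (length_unpair (unpair z).2).2
  have h3 := (length_unpair (unpair (unpair z).2).2).2
  omega

/-- the universal pair is in `NP` -/
theorem isNP_UU {k : ℕ} (hk : 0 < k) (κ : ℕ) (O : Oracle) (c : Bool) : IsNP O (UU k κ O c) := by
  choose Fu hFu using uA_total O
  have hG : IsFP O Fu := ⟨uA, hFu⟩
  -- the question for the flag
  have hz1 : Poly (fun y : List Bool => (unpair y).1) := Poly.fst poly_unpair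
  have hF : IsFP O (fun y => ([true :: List.replicate (zm (unpair y).1 ^ (2 ^ κ)) true] :
      List (List Bool)).map O) :=
    IsFP.tt (Q := fun y => [true :: List.replicate (zm (unpair y).1 ^ (2 ^ κ)) true])
      (H := fun p => p.2) (Poly.cons (Poly.cons (NPC.Poly.const true)
        (DP.p_replicate (u_powc (u_zm hz1) _) true)) (NPC.Poly.const [])) (Poly.snd Poly.id)
  have hz2 : Poly (fun p : List Bool × List Bool => (unpair p.1).1) := hz1.comp (Poly.fst Poly.id)
  have hw2 : Poly (fun p : List Bool × List Bool => (unpair p.1).2) :=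
    (Poly.snd poly_unpair).comp (Poly.fst Poly.id)
  have hφ : Poly (fun p : List Bool × List Bool =>
      pairBits (pairBits (cd c (zi (unpair p.1).1)) (pairBits (zu (unpair p.1).1)
        (List.replicate (zm (unpair p.1).1) true))) (unpair p.1).2) :=
    H622R2.poly_pairBits (H622R2.poly_pairBits (p_cd c (u_zi hz2).toPoly)
      (H622R2.poly_pairBits (p_zu hz2) (DP.p_replicate (u_zm hz2) true))) hw2
  have hz3 : Poly (fun p : List Bool × List Bool × List Bool => (unpair p.1).1) :=
    hz1.comp (Poly.fst Poly.id)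
  have hw3 : Poly (fun p : List Bool × List Bool × List Bool => (unpair p.1).2) :=
    (Poly.snd poly_unpair).comp (Poly.fst Poly.id)
  have hψ : Poly (fun p : List Bool × List Bool × List Bool =>
      [(grd k (unpair p.1).1 && decide (p.2.1 = [false])) &&
        (decide ((unpair p.1).2.length ≤ zm (unpair p.1).1) && decide (p.2.2 = [true]))]) :=
    Poly.cons (Poly.and (Poly.and (p_grd k hz3) (Poly.decide_eq (Poly.fst (Poly.snd Poly.id))
      (NPC.Poly.const _))) (Poly.and (Poly.decide_le (Poly.length hw3) (u_zm hz3).toPoly)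
        (Poly.decide_eq (Poly.snd (Poly.snd Poly.id)) (NPC.Poly.const _)))) (NPC.Poly.const [])
  have hV := IsFP.seq hF hG hφ hψ
  refine ⟨_, Polynomial.X, hV, fun z => ?_⟩
  simp only [Polynomial.eval_X, unpair_pairBits, List.cons.injEq, and_true, List.map_cons,
    List.map_nil, Bool.and_eq_true, decide_eq_true_eq]
  unfold UU Acc
  simp only [Set.mem_ofPred_eq, hFu, Option.some.injEq]
  have h0 := zm_le z
  constructor
  · rintro ⟨h1, h2, w, h3, h4⟩
    refine ⟨w, h3.trans h0, ⟨h1, ?_⟩, h3, h4⟩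
    obtain ⟨h5, -, -⟩ := (grd_iff hk z).1 h1
    rw [h5, ← fl_eq_replicate]
    exact h2
  · rintro ⟨w, -, ⟨h1, h2⟩, h3, h4⟩
    refine ⟨h1, ?_, w, h3, h4⟩
    obtain ⟨h5, -, -⟩ := (grd_iff hk z).1 h1
    rw [h5, ← fl_eq_replicate] at h2
    exact h2

/-- the universal pair is disjoint -/
theorem disj_UU : ∃ κ₀, ∀ κ ≥ κ₀, ∀ (k : ℕ) (B A₀ : Oracle), 0 < k → ∀ z,
    ¬ (z ∈ UU k κ (jn (Φ k κ B A₀) B) false ∧ z ∈ UU k κ (jn (Φ k κ B A₀) B) true) := by
  obtain ⟨κ₀, hκ₀⟩ := flag_Φ
  refine ⟨κ₀, fun κ hκ k B A₀ hk z => ?_⟩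
  rintro ⟨⟨h1, h2, h3⟩, -, -, h4⟩
  obtain ⟨h5, h6, h7⟩ := (grd_iff hk z).1 h1
  obtain ⟨-, h8, h9⟩ := Rd.le hk h7
  have h10 : Flag k (jn (Φ k κ B A₀) B) (zj z) := by
    refine ⟨zi z, h7, zu z, ?_, ?_, ?_⟩
    · rw [← h5]; exact h6
    · rw [← h5]; exact h3
    · rw [← h5]; exact h4
  have h11 := (hκ₀ κ hκ k B A₀ (zj z) hk h8 h9).2 h10
  have h12 : Φ k κ B A₀ (fl κ (zj z)) = false := h2
  rw [h11] at h12
  exact absurd h12 (by simp)

end Pool.Agent.H96R.CP
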